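import Pool.Agent.H56.E.Base
import Pool.Agent.H56.E.H56.G3.TI

/-!
# Theorem (G), section 3b, BN: the bundle
-/

set_option autoImplicit false

namespace Pool.Agent.H56.E.H36.G3

open Pool.Agent.H36.G3

open Finset Pool.Agent.H6.N4D Pool.Agent.H78.GX.H6.N4D Pool.Agent.H93.EB Pool.Agent.H93.GS Pool.Agent.H56.G3 Pool.Agent.H56.E.H56.G3

/-- the minimum of finitely many positive numbers -/
theorem exists_lo (f : ℕ → ℝ) (hf : ∀ l, 0 < f l) (L : ℕ) : ∃ m, 0 < m ∧ ∀ l < L, m ≤ f l := by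
  induction L with
  | zero => exact ⟨1, one_pos, fun l hl => absurd hl (Nat.not_lt_zero l)⟩
  | succ L ih =>
    obtain ⟨m, hm, h⟩ := ih
    refine ⟨min m (f L), lt_min hm (hf L), fun l hl => ?_⟩
    rcases Nat.lt_succ_iff_lt_or_eq.1 hl with h1 | h1
    · exact (min_le_left _ _).trans (h l h1)
    · rw [h1]
      exact min_le_right _ _

/-- the maximum of finitely many numbers -/
theorem exists_hi (f : ℕ → ℝ) (L : ℕ) : ∃ M, 1 ≤ M ∧ ∀ l < L, f l ≤ M := by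
  induction L with
  | zero => exact ⟨1, le_rfl, fun l hl => absurd hl (Nat.not_lt_zero l)⟩
  | succ L ih =>
    obtain ⟨M, hM, h⟩ := ih
    refine ⟨max M (f L), hM.trans (le_max_left _ _), fun l hl => ?_⟩
    rcases Nat.lt_succ_iff_lt_or_eq.1 hl with h1 | h1
    · exact (h l h1).trans (le_max_left _ _)
    · rw [h1]
      exact le_max_right _ _

/-- changing the order of summation -/
theorem sum_cnt (S : Par) (Q : Finset ℕ) (a : ℕ → ℝ) (E : ℕ → ℤ → Prop)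
    [∀ t, DecidablePred fun p => E p t] :
    ∑ p ∈ Q, a p * S.cnt (E p) = ∑ t ∈ S.I, ∑ p ∈ Q.filter (fun p => E p t), a p := by
  have h1 : ∀ p, a p * S.cnt (E p) = ∑ t ∈ S.I, if E p t then a p else 0 := by
    intro p
    unfold Par.cnt Par.fl
    rw [card_filter, Nat.cast_sum, mul_sum]
    refine sum_congr rfl fun t _ => ?_
    by_cases h : E p t
    · rw [if_pos h, if_pos h, Nat.cast_one, mul_one]
    · rw [if_neg h, if_neg h, Nat.cast_zero, mul_zero]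
  rw [sum_congr rfl fun p _ => h1 p, sum_comm]
  exact sum_congr rfl fun t _ => (sum_filter _ _).symm

open Classical in
/-- the bundle of the large coefficients -/
theorem bnd_core {S : Par} {ε e₀ c W δ kp : ℝ} {r₀ : ℕ} (G : ℤ → Ex) (good : ℤ → Prop)
    (Gp' : ℕ → ℤ → Prop) (hN : 0 ≤ S.N) (hk : ∀ t, (G t).k ≤ r₀) (hδ0 : 0 ≤ δ)
    (hbad : S.cnt (fun t => ¬ good t) ≤ δ * S.N)
    (hband : S.cnt (fun t => ¬ Nb kp (G t)) ≤ δ * S.N)
    (hne : S.cnt (fun t => Lg kp (G t) = ∅) ≤ (1 - c) * S.N)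
    (hsep : ∀ t ∈ S.I, Sp (G t) (1 / (S.rho * S.x t)))
    (hsh : ∀ w : ℕ, (w : ℝ) * S.h ≤ S.rho / 4 → ∀ t ∈ S.I, t + (w : ℤ) ∈ S.I → good t →
      good (t + w) → Nb kp (G t) → Nb kp (G (t + w)) →
      Pool.Agent.H78.GX.H78.GS.Mat (Pool.Agent.H78.GX.H78.GS.RS S e₀ (fun t i => (G t).a i)
        (fun t i => ps (G t) (S.n t) i) w t) (Lg kp (G t)) (Lg kp (G (t + w))))
    (hed : ∀ t ∈ S.I, good t →
      ∑ p ∈ S.Q.filter (fun p : ℕ => t - S.l p ∈ S.I ∧ ¬ Gp' p t), 1 / (p : ℝ) ≤ ε / 2)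
    (hed2 : ∀ p ∈ S.Q, ∀ t ∈ S.I, t - S.l p ∈ S.I → good t → good (t - S.l p) → Nb kp (G t) →
      Nb kp (G (t - S.l p)) → Gp' p t →
      Pool.Agent.H78.GX.H78.GS.Mat (Pool.Agent.H78.GX.H78.GS.RE S e₀ (fun t i => (G t).a i)
        (fun t i => ps (G t) (S.n t) i) p t) (Lg kp (G t)) (Lg kp (G (t - S.l p))))
    (hW : ∑ p ∈ S.Q, 1 / (p : ℝ) ≤ W) (hδ : 4 * W * δ ≤ ε / 2) (hδ' : 4 * δ ≤ ε) (hε : 0 ≤ ε) :
    Pool.Agent.H78.GX.H78.GS.Bnd S ε e₀ c r₀ (fun t => Lg kp (G t)) (fun t i => (G t).a i)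
      (fun t i => ps (G t) (S.n t) i) := by
  have hB : S.cnt (fun t => ¬ good t ∨ ¬ Nb kp (G t)) ≤ 2 * δ * S.N := by
    have := Par.cnt_or (S := S) (fun t => ¬ good t) (fun t => ¬ Nb kp (G t))
    linarith
  refine ⟨?_, hne, ?_, ?_, ?_⟩
  · intro t i hi
    unfold Lg at hi
    rw [mem_filter, mem_range] at hi
    rw [mem_range]
    exact lt_of_lt_of_le hi.1 (hk t)
  · intro t ht i hi j hj hij
    unfold Lg at hi hj
    rw [mem_filter, mem_range] at hi hj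
    exact hsep t ht i hi.1 j hj.1 hij
  · intro w hw
    have h1 : S.cnt (fun t => t + (w : ℤ) ∈ S.I ∧ ¬ Pool.Agent.H78.GX.H78.GS.Mat
        (Pool.Agent.H78.GX.H78.GS.RS S e₀ (fun t i => (G t).a i) (fun t i => ps (G t) (S.n t) i) w t)
        (Lg kp (G t)) (Lg kp (G (t + w)))) ≤
        S.cnt (fun t => ¬ good t ∨ ¬ Nb kp (G t)) +
          S.cnt (fun t => t + (w : ℤ) ∈ S.I ∧ (¬ good (t + w) ∨ ¬ Nb kp (G (t + w)))) := by
      refine Par.cnt_le_add fun t ht hE => ?_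
      by_contra hno
      push Not at hno
      obtain ⟨h2, h3⟩ := hno
      have h4 := h3 hE.1
      exact hE.2 (hsh w hw t ht hE.1 h2.1 h4.1 h2.2 h4.2)
    have h2 := Par.cnt_shift (S := S) (fun t => ¬ good t ∨ ¬ Nb kp (G t)) (w : ℤ)
    have h3 : 4 * δ * S.N ≤ ε * S.N := mul_le_mul_of_nonneg_right hδ' hN
    refine h1.trans ?_
    linarith
  · have h1 : ∀ p ∈ S.Q, 1 / (p : ℝ) * S.cnt (fun t => t - S.l p ∈ S.I ∧
        ¬ Pool.Agent.H78.GX.H78.GS.Mat (Pool.Agent.H78.GX.H78.GS.RE S e₀ (fun t i => (G t).a i)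
          (fun t i => ps (G t) (S.n t) i) p t) (Lg kp (G t)) (Lg kp (G (t - S.l p)))) ≤
        1 / (p : ℝ) * (4 * δ * S.N) +
          1 / (p : ℝ) * S.cnt (fun t => good t ∧ t - S.l p ∈ S.I ∧ ¬ Gp' p t) := by
      intro p hp
      rw [← mul_add]
      refine mul_le_mul_of_nonneg_left ?_ (by positivity)
      have h2 : S.cnt (fun t => t - S.l p ∈ S.I ∧
          ¬ Pool.Agent.H78.GX.H78.GS.Mat (Pool.Agent.H78.GX.H78.GS.RE S e₀ (fun t i => (G t).a i)
            (fun t i => ps (G t) (S.n t) i) p t) (Lg kp (G t)) (Lg kp (G (t - S.l p)))) ≤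
          S.cnt (fun t => (¬ good t ∨ ¬ Nb kp (G t)) ∨
            (t + -S.l p ∈ S.I ∧ (¬ good (t + -S.l p) ∨ ¬ Nb kp (G (t + -S.l p))))) +
          S.cnt (fun t => good t ∧ t - S.l p ∈ S.I ∧ ¬ Gp' p t) := by
        refine Par.cnt_le_add fun t ht hE => ?_
        by_contra hno
        rw [not_or, not_or] at hno
        obtain ⟨⟨h2, h3⟩, h4⟩ := hno
        rw [← sub_eq_add_neg] at h3
        push Not at h2 h3 h4
        have h5 := h3 hE.1
        exact hE.2 (hed2 p hp t ht hE.1 h2.1 h5.1 h2.2 h5.2 (h4 h2.1 hE.1))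
      have h3 := Par.cnt_or (S := S) (fun t => ¬ good t ∨ ¬ Nb kp (G t))
        (fun t => t + -S.l p ∈ S.I ∧ (¬ good (t + -S.l p) ∨ ¬ Nb kp (G (t + -S.l p))))
      have h4 := Par.cnt_shift (S := S) (fun t => ¬ good t ∨ ¬ Nb kp (G t)) (-S.l p)
      linarith
    refine (sum_le_sum h1).trans ?_
    rw [sum_add_distrib, ← sum_mul, sum_cnt]
    have h4 : (∑ p ∈ S.Q, 1 / (p : ℝ)) * (4 * δ * S.N) ≤ W * (4 * δ * S.N) :=
      mul_le_mul_of_nonneg_right hW (by positivity)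
    refine (add_le_add h4 (sum_le_sum fun t ht => (?_ : _ ≤ ε / 2))).trans ?_
    · by_cases hg : good t
      · refine le_trans (sum_le_sum_of_subset_of_nonneg ?_ fun p _ _ => by positivity)
          (hed t ht hg)
        intro p hp
        rw [mem_filter] at hp ⊢
        exact ⟨hp.1, hp.2.2⟩
      · refine le_trans (le_of_eq (sum_eq_zero fun p hp => ?_)) (by positivity : 0 ≤ ε / 2)
        rw [mem_filter] at hp
        exact absurd hp.2.1 hg
    · rw [sum_const, nsmul_eq_mul, Par.card_I hN]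
      have h5 : 4 * W * δ * S.N ≤ ε / 2 * S.N := mul_le_mul_of_nonneg_right hδ hN
      have h6 : W * (4 * δ * S.N) = 4 * W * δ * S.N := by ring
      linarith

/-- BN. The bundle. -/
theorem pf_BN (_hRB : T_RB) (hSB : T_SB) (hED : T_ED) (_hBA : T_BA) (hBP : T_BP) (hBL : T_BL)
    (hBS : T_BS) (hBE : T_BE) (hSN : T_SN) (hWLG : T_WLG) : T_BN := by
  classical
  intro th c ε e₀ K hth hth1 hc hε he₀ hK
  obtain ⟨CW, hCW, hWL⟩ := hWLG
  obtain ⟨XW, hXW⟩ := hWL K hK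
  have hK1 : (1 : ℝ) ≤ K := by exact_mod_cast hK
  have hlogK : 0 ≤ Real.log K := Real.log_nonneg hK1
  obtain ⟨W, hWdef⟩ : ∃ W, W = CW * (1 + Real.log K) := ⟨_, rfl⟩
  rw [← hWdef] at hXW
  have hW1 : 1 ≤ W := by
    rw [hWdef]
    nlinarith
  have hr0 : 1 ≤ r0 th := by
    unfold r0
    exact Nat.one_le_ceil_iff.2 (by positivity)
  have hr0' : (1 : ℝ) ≤ r0 th := by exact_mod_cast hr0
  -- the small constant
  obtain ⟨δ, hδdef⟩ : ∃ δ, δ = ε / (8 * W) := ⟨_, rfl⟩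
  have hδ0 : 0 < δ := by
    rw [hδdef]
    positivity
  have hδW : 4 * W * δ = ε / 2 := by
    rw [hδdef]
    field_simp
    ring
  have hδε : 4 * δ ≤ ε := by
    have : δ ≤ W * δ := by nlinarith
    nlinarith
  obtain ⟨L, hL⟩ := exists_nat_ge ((r0 th : ℝ) / δ)
  have hL1 : 1 ≤ L := by
    have h1 : (0 : ℝ) < L := lt_of_lt_of_le (by positivity) hL
    exact_mod_cast h1
  have hL0 : (0 : ℝ) < L := by exact_mod_cast hL1
  have hrL : (r0 th : ℝ) / L ≤ δ := by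
    rw [div_le_iff₀ hδ0] at hL
    rw [div_le_iff₀ hL0]
    linarith
  -- the thresholds
  obtain ⟨κ₀, hκ₀⟩ : ∃ κ₀, κ₀ = c / (200 * r0 th) := ⟨_, rfl⟩
  have hκ₀0 : 0 < κ₀ := by
    rw [hκ₀]
    positivity
  let kp : ℕ → ℝ := fun l => κ₀ / (2 * 4 ^ l)
  have hkp0 : ∀ l, 0 < kp l := fun l => by
    show 0 < κ₀ / (2 * 4 ^ l)
    positivity
  choose κS LS hκS hLS hXS using fun l => hBS th (kp l) e₀ K hth hth1 (hkp0 l) he₀ hK
  choose κE LE hκE hLE hXE using fun l => hBE th (kp l) e₀ K hth hth1 (hkp0 l) he₀ hK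
  obtain ⟨κs, hκs0, hκs⟩ := exists_lo κS hκS L
  obtain ⟨κe, hκe0, hκe⟩ := exists_lo κE hκE L
  obtain ⟨Ls, hLs1, hLs⟩ := exists_hi LS L
  obtain ⟨Le, hLe1, hLe⟩ := exists_hi LE L
  obtain ⟨κd, Ld, hκd0, hLd, hXD⟩ := hED th κe (ε / 2) Le K hth hth1 hκe0 (by positivity)
    (by linarith) hK
  obtain ⟨Lm, hLm⟩ : ∃ Lm, Lm = max Ls Ld := ⟨_, rfl⟩
  have hLm1 : Ls ≤ Lm := hLm ▸ le_max_left _ _
  have hLm2 : Ld ≤ Lm := hLm ▸ le_max_right _ _
  have hLm0 : 1 ≤ Lm := hLs1.trans hLm1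
  obtain ⟨κm, hκm⟩ : ∃ κm, κm = min (min κs κe) (min κd (c / 40)) := ⟨_, rfl⟩
  have hκm0 : 0 < κm := by
    rw [hκm]
    exact lt_min (lt_min hκs0 hκe0) (lt_min hκd0 (by positivity))
  have hκm1 : κm ≤ κs := by
    rw [hκm]
    exact (min_le_left _ _).trans (min_le_left _ _)
  have hκm2 : κm ≤ κe := by
    rw [hκm]
    exact (min_le_left _ _).trans (min_le_right _ _)
  have hκm3 : κm ≤ κd := by
    rw [hκm]
    exact (min_le_right _ _).trans (min_le_left _ _)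
  have hκm4 : κm ≤ c / 40 := by
    rw [hκm]
    exact (min_le_right _ _).trans (min_le_right _ _)
  obtain ⟨κ', hκ'0, hκ'⟩ := hSB th Lm κm hth hth1 (by linarith) hκm0
  refine ⟨min κ' κm, min δ (c / 40), lt_min hκ'0 hκm0, lt_min hδ0 (by positivity), fun r => ?_⟩
  obtain ⟨X₁, hX₁⟩ := hκ' K r hK
  obtain ⟨X₂, hX₂⟩ := hXD r
  choose X₃ hX₃ using fun l => hXS l r
  choose X₄ hX₄ using fun l => hXE l r
  obtain ⟨X₅, -, hX₅⟩ := exists_hi X₃ L
  obtain ⟨X₆, -, hX₆⟩ := exists_hi X₄ L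
  obtain ⟨X₇, hX₇⟩ := hSN K r 1 hK
  obtain ⟨Y, hY⟩ := exists_hi (fun i => if i = 0 then X₁ else if i = 1 then X₂ else
    if i = 2 then X₅ else if i = 3 then X₆ else if i = 4 then X₇ else XW) 6
  refine ⟨Y, fun S k₁ lam hS hX hlio hbad hen => ?_⟩
  have hY1 : X₁ ≤ S.X := (hY.2 0 (by norm_num)).trans hX
  have hY2 : X₂ ≤ S.X := (hY.2 1 (by norm_num)).trans hX
  have hY5 : X₅ ≤ S.X := (hY.2 2 (by norm_num)).trans hX
  have hY6 : X₆ ≤ S.X := (hY.2 3 (by norm_num)).trans hX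
  have hY7 : X₇ ≤ S.X := (hY.2 4 (by norm_num)).trans hX
  have hYW : XW ≤ S.X := (hY.2 5 (by norm_num)).trans hX
  have hB1 : B1 lam := fun n => by
    rcases hlio.pm n with h | h <;> rw [h] <;> norm_num
  obtain ⟨-, hNh, -, -, -, hNt, -, -⟩ := hX₇ S k₁ hS hY7
  have hh : 0 < S.h := hS.ok.hh
  have hrho : 0 < S.rho := hS.ok.hr0
  have hN : 0 < S.N := by
    by_contra hcon
    rw [not_lt] at hcon
    nlinarith
  have hmono : ∀ t, Gt th (min κ' κm) lam S t → ∀ κ'' : ℝ, min κ' κm ≤ κ'' →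
      Gt th κ'' lam S t := by
    intro t ht κ'' h i hi w hw
    exact ⟨(ht i hi w hw).1.trans h, (ht i hi w hw).2.trans h⟩
  -- the sums
  have hGex : ∀ t, ∃ g : Ex, g.k ≤ r0 th ∧ (t ∈ S.I → Gt th (min κ' κm) lam S t →
      Sp g (Lm / Nt S t) ∧ df th lam 1 (Nt S t) (S.n t) g ≤ κm) ∧
      (¬ (t ∈ S.I ∧ Gt th (min κ' κm) lam S t) → g.k = 0) := by
    intro t
    by_cases h : t ∈ S.I ∧ Gt th (min κ' κm) lam S t
    · obtain ⟨g, hg1, hg2, hg3⟩ := hX₁ S k₁ lam t hS hY1 hB1 h.1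
        (hmono t h.2 κ' (min_le_left _ _))
      exact ⟨g, hg1, fun _ _ => ⟨hg2, hg3⟩, fun h' => absurd h h'⟩
    · exact ⟨⟨0, fun _ => 0, fun _ => 0⟩, Nat.zero_le _, fun h1 h2 => absurd ⟨h1, h2⟩ h,
        fun _ => rfl⟩
  choose G hGk hG hG0 using hGex
  obtain ⟨l, hl, hlb⟩ := hBP S G κ₀ (r0 th) L hκ₀0 hL1 hN.le fun t _ => hGk t
  have hNtle : ∀ t, (Nt S t : ℝ) ≤ S.rho * S.x t := by
    intro t
    have h1 : (S.n t : ℝ) ≤ S.x t := Nat.floor_le (Par.x_pos t).le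
    have h2 : (Nt S t : ℝ) ≤ S.rho * S.n t := Nat.floor_le (by positivity)
    exact h2.trans (mul_le_mul_of_nonneg_left h1 hrho.le)
  have hSpm : ∀ (g : Ex) (a b : ℝ), a ≤ b → Sp g b → Sp g a :=
    fun g a b hab h i hi j hj hij => hab.trans (h i hi j hj hij)
  have hdiv : ∀ (a b : ℝ) (n : ℕ), a ≤ b → a / n ≤ b / n := fun a b n h =>
    div_le_div_of_nonneg_right h (Nat.cast_nonneg n)
  have hband : S.cnt (fun t => ¬ Nb (kp l) (G t)) ≤ δ * S.N := by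
    have h1 : S.cnt (fun t => ¬ Nb (kp l) (G t)) ≤ S.cnt (fun t => ∃ i < (G t).k,
        κ₀ / 4 ^ (l + 1) ≤ ‖(G t).c i‖ ∧ ‖(G t).c i‖ < κ₀ / 4 ^ l) := by
      refine Par.cnt_mono fun t _ ht => ?_
      unfold Nb at ht
      push Not at ht
      obtain ⟨i, hi, h1, h2⟩ := ht
      refine ⟨i, hi, ?_, ?_⟩
      · have : kp l / 2 = κ₀ / 4 ^ (l + 1) := by
          show κ₀ / (2 * 4 ^ l) / 2 = κ₀ / 4 ^ (l + 1)
          rw [div_div, pow_succ]
          congr 1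
          ring
        rwa [this] at h1
      · have : 2 * kp l = κ₀ / 4 ^ l := by
          show 2 * (κ₀ / (2 * 4 ^ l)) = κ₀ / 4 ^ l
          field_simp
        rwa [this] at h2
    exact h1.trans (hlb.trans (mul_le_mul_of_nonneg_right hrL hN.le))
  refine ⟨fun t => Lg (kp l) (G t), fun t i => (G t).a i, fun t i => ps (G t) (S.n t) i,
    bnd_core (W := W) (δ := δ) G (Gt th (min κ' κm) lam S)
      (fun p t => Gp th κe Le lam S (G t) t p) hN.le hGk hδ0.le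
      (hbad.trans (mul_le_mul_of_nonneg_right (min_le_left _ _) hN.le)) hband ?_ ?_ ?_ ?_ ?_ ?_
      hδW.le hδε hε.le⟩
  · -- nonempty
    have h1 : S.cnt (fun t => Lg (kp l) (G t) = ∅) ≤
        S.cnt (fun t => ¬ Gt th (min κ' κm) lam S t) +
          S.cnt (fun t => ¬ c / 20 ≤ En th lam 1 (Nt S t) (S.n t)) := by
      refine Par.cnt_le_add fun t ht hE => ?_
      by_contra hno
      push Not at hno
      obtain ⟨h2, h3⟩ := hno
      obtain ⟨h4, h5⟩ := hG t ht h2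
      have hNt1 : 1 ≤ Nt S t := by
        have := (hNt t ht).1
        exact_mod_cast this
      obtain ⟨i, hi, h6⟩ := hBL th κm (c / 20) lam (Nt S t) (S.n t) (G t) hth hth1 hB1 hNt1 h3
        h5 (by linarith) (by positivity)
      have h7 : i ∈ Lg (kp l) (G t) := by
        unfold Lg
        rw [mem_filter, mem_range]
        refine ⟨hi, le_trans ?_ h6⟩
        have hk1 : (1 : ℝ) ≤ (G t).k := by
          have : 1 ≤ (G t).k := Nat.one_le_iff_ne_zero.2 (by omega)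
          exact_mod_cast this
        have hk2 : ((G t).k : ℝ) ≤ r0 th := by exact_mod_cast hGk t
        have h8 : kp l ≤ κ₀ := by
          show κ₀ / (2 * 4 ^ l) ≤ κ₀
          refine div_le_self hκ₀0.le ?_
          have : (1 : ℝ) ≤ 4 ^ l := one_le_pow₀ (by norm_num)
          linarith
        refine h8.trans ?_
        rw [hκ₀, div_div]
        refine div_le_div_of_nonneg_left hc.le (by positivity) ?_
        nlinarith
      rw [hE] at h7
      exact absurd h7 (notMem_empty i)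
    have h2 : S.cnt (fun t => ¬ c / 20 ≤ En th lam 1 (Nt S t) (S.n t)) +
        S.cnt (fun t => c / 20 ≤ En th lam 1 (Nt S t) (S.n t)) = S.N := by
      rw [← Par.card_I hN.le]
      unfold Par.cnt Par.fl
      rw [← Nat.cast_add, add_comm, card_filter_add_card_filter_not]
    have h3 : min δ (c / 40) * S.N ≤ c / 40 * S.N :=
      mul_le_mul_of_nonneg_right (min_le_right _ _) hN.le
    linarith
  · -- separated
    intro t ht
    by_cases hg : Gt th (min κ' κm) lam S t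
    · refine hSpm _ _ _ ?_ (hG t ht hg).1
      have hNt1 : (1 : ℝ) ≤ Nt S t := (hNt t ht).1
      have hx : 0 < S.rho * S.x t := mul_pos hrho (Par.x_pos t)
      rw [div_le_div_iff₀ hx (by linarith)]
      have := hNtle t
      nlinarith
    · intro i hi
      rw [hG0 t fun h => hg h.2] at hi
      exact absurd hi (Nat.not_lt_zero i)
  · -- shifts
    intro w hw t ht htw hg hg' hnb hnb'
    obtain ⟨h1, h2⟩ := hG t ht hg
    obtain ⟨h3, h4⟩ := hG (t + w) htw hg'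
    have h5 : LS l ≤ Lm := (hLs l hl).trans hLm1
    have h6 : κm ≤ κS l := hκm1.trans (hκs l hl)
    exact hX₃ l S k₁ lam t w (G t) (G (t + w)) hS ((hX₅ l hl).trans hY5) hB1 ht htw hw
      (hmono t hg _ ((min_le_right _ _).trans h6)) (hSpm _ _ _ (hdiv _ _ _ h5) h1)
      (hSpm _ _ _ (hdiv _ _ _ h5) h3) (h2.trans h6) (h4.trans h6) hnb hnb'
  · -- the bad primes
    intro t ht hg
    obtain ⟨h1, h2⟩ := hG t ht hg
    exact hX₂ S k₁ lam t (G t) hS hY2 hlio ht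
      (hmono t hg _ ((min_le_right _ _).trans hκm3)) (hGk t) (hSpm _ _ _ (hdiv _ _ _ hLm2) h1)
      (h2.trans hκm3)
  · -- the edges
    intro p hp t ht htp hg hg' hnb hnb' hgp
    obtain ⟨h3, h4⟩ := hG (t - S.l p) htp hg'
    have h5 : LE l ≤ Le := hLe l hl
    have h5' : LE l ≤ Lm := h5.trans (hLd.trans hLm2)
    have h6 : κm ≤ κE l := hκm2.trans (hκe l hl)
    exact hX₄ l S k₁ lam t p (G t) (G (t - S.l p)) hS ((hX₆ l hl).trans hY6) hlio ht htp hp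
      ⟨hgp.1.trans (hκe l hl), hSpm _ _ _ (hdiv _ _ _ h5) hgp.2⟩
      (hSpm _ _ _ (hdiv _ _ _ h5') h3) (h4.trans h6) hnb hnb'
  · have h1 : S.Q = Pr (PP S.X) (PP S.X ^ (2 * K)) := by
      unfold Par.Q Par.P
      rw [hS.hK]
    rw [h1]
    exact hXW S.X hYW

end Pool.Agent.H56.E.H36.G3
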